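import Pool.Agent.H.MP_8c4891_lc.B

set_option autoImplicit false

namespace Pool.Agent.Results.MP_8c4891_lc.Full

open Pool.Agent.Lib.CX Pool.Agent.H.MP_8c4891_lc Function

/-- the number `t` of token types, the triples `(i, u, v)` with `(u, v) ∈ E i`, the pairs (vertex, token type) -/
abbrev Pos := ℕ × List (ℕ × ℕ × ℕ) × List (ℕ × ℕ)

/-- types are `0, …, t - 1` with `2 ≤ t`, there are no loops, and each vertex holds at most one token -/
def Valid (a : Pos) : Prop :=
  2 ≤ a.1 ∧ (∀ e ∈ a.2.1, e.1 < a.1 ∧ e.2.1 ≠ e.2.2) ∧ (∀ x ∈ a.2.2, x.2 < a.1) ∧ (a.2.2.map Prod.fst).Nodup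

/-- a token of type `i` slides from `u` to `v`; both tokens vanish if `v` is occupied -/
def Move (E : List (ℕ × ℕ × ℕ)) (p q : ℕ → Option ℕ) : Prop :=
  ∃ i u v, (i, u, v) ∈ E ∧ p u = some i ∧
    q = update (update p u none) v (if p v = none then some i else none)

lemma move_eq (E : List (ℕ × ℕ × ℕ)) : Move E = MoveF false E := by
  ext p q
  simp [Move, MoveF]

abbrev K := Option (ℕ × Cell)

lemma valid {t : ℕ} (ht : 2 ≤ t) (a : List K × List (Act K)) (h : a.1.Nodup) :
    Valid (t, tokName (edges a.1 a.2, init a.1)) := by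
  refine ⟨ht, List.forall_mem_map.2 fun e he => ?_, List.forall_mem_map.2 fun e he => ?_, ?_⟩
  · simp only [edges, List.mem_append, List.mem_flatMap, List.mem_cons, List.mem_map, List.not_mem_nil,
      or_false] at he
    simp only [ne_eq, nameOf_inj]
    rcases he with ⟨a, ha, rfl | ⟨w, hw, rfl⟩⟩ | ⟨a, ha, rfl | ⟨w, hw, rfl | rfl⟩⟩
    · grind
    · have := out_k hw; grind
    · grind
    · have := wit_k hw; grind
    · have := wit_k hw; grind
  · simp only [init, List.mem_cons, List.mem_map] at he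
    grind
  · simp only [tokName, init, List.map_map, List.map_cons, List.nodup_cons]
    exact ⟨by simp, h.map fun x y => by simp⟩

theorem result (S : ℕ → Prop) (hS : ∃ t, 2 ≤ t ∧ S t) :
    (EXPComplete fun a : {a : Pos // Valid a ∧ S a.1} => Win (Move a.1.2.1) (place a.1.2.2)) ∧
    (InEXP fun a : {a : Pos // Valid a ∧ S a.1} => Lose (Move a.1.2.1) (place a.1.2.2)) := by
  obtain ⟨t, ht, hS⟩ := hS
  simp only [move_eq]
  refine ⟨⟨(tok_mem false).1.red ⟨fun a => a.1.2, by fun_prop, fun _ => .rfl⟩,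
    ga_hard'.red ⟨fun a => ⟨_, valid ht _ a.2.1, hS⟩, PT.subtype ((PT.const t).pair (red_pt.comp PT.id.val)) _,
      fun a => .trans ?_ (tokName_win ..).symm⟩⟩,
    (tok_mem false).2.red ⟨fun a => a.1.2, by fun_prop, fun _ => .rfl⟩⟩
  exact ⟨fun h => win_of a.2.2 h _ (rep _), fun h => by_contra fun h' =>
    not_win_of a.2.2 h' (by simp +contextual) (rep _) h⟩

end Pool.Agent.Results.MP_8c4891_lc.Full
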